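import Pool.Agent.Helper13.TR.StC

/-!
# Project TR, module FN1: local product structure
-/

set_option autoImplicit false

namespace Pool.Agent.Helper6.TR

open Set Topology Pool.Agent.Helper13.TR

/-- the points whose second coordinate is in `A` -/
private def fib {V : Type} [TopologicalSpace V] (A : Set V) :
    ↥{p : ℝ × V | p.2 ∈ A} ≃ₜ ℝ × ↥A where
  toFun p := (p.1.1, ⟨p.1.2, p.2⟩)
  invFun q := ⟨(q.1, q.2.1), q.2.2⟩
  left_inv _ := rfl
  right_inv _ := rfl
  continuous_toFun :=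
    (continuous_fst.comp continuous_subtype_val).prodMk
      ((continuous_snd.comp continuous_subtype_val).subtype_mk _)
  continuous_invFun :=
    (continuous_fst.prodMk (continuous_subtype_val.comp continuous_snd)).subtype_mk _

theorem hFN1 (hLOC : StLOC) (hGCO : StGCO) (hIND : StIND) (hG2A : StG2A) (hPRO : StPRO)
    (hOPN : StOPN) : StFN1 := by
  intro X Y _ _ _ _ _ _ hX hY x N hN j hj
  obtain ⟨U, hU, hxU, V, tV, hVm, hVl, ⟨i, hi⟩, f, hf⟩ := hLOC ℝ X Y hGCO.1 x N hN j hj
  have hV3 : IndLT 3 V := hIND.1 3 Y V i hi hY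
  have hG2 : G2 V := hG2A V hV3
  have : LocallyPathConnectedSpace ↥U := hU.locallyPathConnectedSpace
  have hHU : HM ↥U := hOPN X U hU hX
  obtain ⟨A, hA, hr⟩ := hPRO ↥U V hHU hG2 f hf
  refine ⟨U, hU, hxU, ↥A, inferInstance, ⟨?_⟩⟩
  exact (hf.toIsEmbedding.toHomeomorph.trans (Homeomorph.setCongr hr)).trans (fib A)

end Pool.Agent.Helper6.TR
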