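import Pool.Agent.Helper13.TR.StB

set_option autoImplicit false

namespace Pool.Agent.Helper6.TR

open Set Topology Pool.Agent.Helper13.TR

theorem hCUT (hMV : StMV) (hCON : StCON) (hMON : StMON) : StCUT := by
  intro W Z _ _ _ q K k σ hK ha hb
  classical
  obtain ⟨-, -, hM3, -, hM5, -⟩ := hMON W
  -- the pieces at the points of `K`
  have h1 : ∀ y : K, ∃ E F : Set Z, IsClosed E ∧ IsClosed F ∧ E ∪ F = K ∧ (y : Z) ∉ F ∧
      σ ∈ Nul (q ⁻¹' E) k ∧ ∀ M : Set Z, IsClosed M → M ⊆ E ∩ F → PP (q ⁻¹' M) (k + 1) := by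
    intro y
    obtain ⟨O, hO, hyO, hσ⟩ := hCON.1 W Z q {(y : Z)} k σ (ha y y.2)
    obtain ⟨E, F, hE, hF, hEF, hEO, hyF, hPP⟩ := hb y y.2 O hO (hyO rfl)
    exact ⟨E, F, hE, hF, hEF, hyF, (hM5 _ _ k (preimage_mono hEO)).2 hσ, hPP⟩
  choose E F hE hF hEF hyF hσE hPP using h1
  obtain ⟨t, ht⟩ := hK.elim_finite_subcover (fun y : K => (F y)ᶜ) (fun y => (hF y).isOpen_compl)
    (fun y hy => mem_iUnion.2 ⟨⟨y, hy⟩, hyF ⟨y, hy⟩⟩)
  have key : ∀ t : Finset K, ∀ G : Set Z, IsClosed G → G ⊆ K → (G ∩ ⋂ y ∈ t, F y) = ∅ →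
      σ ∈ Nul (q ⁻¹' G) k := by
    intro t
    induction t using Finset.induction_on with
    | empty =>
      intro G _ _ hG
      have hG' : G = ∅ := by simpa using hG
      rw [hG', preimage_empty]
      have h2 : σ ∈ cin (∅ : Set W)ᶜ k := by
        rw [compl_empty, hM3]
        exact Submodule.mem_top
      exact (le_sup_left : cin (∅ : Set W)ᶜ k ≤ Nul ∅ k) h2
    | insert a t _ ih =>
      intro G hGc hGK hG
      have h2 : (G ∩ E a) ∪ (G ∩ F a) = G := by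
        rw [← inter_union_distrib_left, hEF a, inter_eq_left.2 hGK]
      have h3 : σ ∈ Nul (q ⁻¹' (G ∩ F a)) k := by
        refine ih (G ∩ F a) (hGc.inter (hF a)) (inter_subset_left.trans hGK) ?_
        rw [Finset.set_biInter_insert] at hG
        rw [inter_assoc]
        exact hG
      have h4 : σ ∈ Nul (q ⁻¹' (G ∩ E a)) k :=
        (hM5 _ _ k (preimage_mono inter_subset_right)).2 (hσE a)
      have h5 := ((hMV W (q ⁻¹' (G ∩ E a)) (q ⁻¹' (G ∩ F a))
        ((hGc.inter (hE a)).preimage q.continuous)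
        ((hGc.inter (hF a)).preimage q.continuous) k).2.2.2.2 (by
          rw [← preimage_inter]
          refine hPP a _ ((hGc.inter (hE a)).inter (hGc.inter (hF a))) ?_
          rintro z ⟨⟨-, hz1⟩, ⟨-, hz2⟩⟩
          exact ⟨hz1, hz2⟩)) σ h4 h3
      rw [← preimage_union, h2] at h5
      exact h5
  refine key t K hK.isClosed Subset.rfl ?_
  rw [eq_empty_iff_forall_notMem]
  rintro z ⟨hz, hzt⟩
  obtain ⟨y, hy, hzy⟩ := mem_iUnion₂.1 (ht hz)
  exact hzy (mem_iInter₂.1 hzt y hy)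

end Pool.Agent.Helper6.TR
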